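import Pool.Agent.X55.Mod.Base
import Pool.Agent.Helper112.Arith
import Pool.Agent.H498R2.SM_T8

/-! Fourier coefficients: cosets of subgroups, primitive roots, inverses of intervals. -/

set_option autoImplicit false

namespace Pool.Agent.X55.Mod

open Finset Filter
open scoped Classical

section

variable {p : ℕ} [Fact p.Prime]

lemma sum_psi (b : ZMod p) :
    ∑ x : ZMod p, (ZMod.stdAddChar (x * b) : ℂ) = if b = 0 then (p : ℂ) else 0 := by
  have h4 := AddChar.sum_mulShift b (ZMod.isPrimitive_stdAddChar p)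
  rw [ZMod.card] at h4
  push_cast at h4
  exact h4

/-- the exponential sum over a coset of a subgroup -/
theorem subgroup_sum (G : Subgroup (ZMod p)ˣ) (b : ZMod p) (hb : b ≠ 0) :
    ‖∑ g : G, (ZMod.stdAddChar (b * ((g : (ZMod p)ˣ) : ZMod p)) : ℂ)‖ ≤ Real.sqrt p := by
  have hpp : p.Prime := Fact.out
  set S : ZMod p → ℂ := fun b => ∑ g : G, (ZMod.stdAddChar (b * ((g : (ZMod p)ˣ) : ZMod p)) : ℂ) with hS
  have hGpos : 0 < Fintype.card G := Fintype.card_pos
  have hinv : ∀ h : G, S (b * ((h : (ZMod p)ˣ) : ZMod p)) = S b := by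
    intro h
    rw [hS]
    refine Fintype.sum_equiv (Equiv.mulLeft h) _ _ ?_
    intro g
    rw [Equiv.coe_mulLeft]
    push_cast
    rw [mul_assoc]
  have h1 : ∑ x : ZMod p, ‖S x‖ ^ 2 = p * Fintype.card G := by
    have h2 : ((∑ x : ZMod p, ‖S x‖ ^ 2 : ℝ) : ℂ) = ((p * Fintype.card G : ℝ) : ℂ) := by
      push_cast
      have h3 : ∀ x : ZMod p, (‖S x‖ : ℂ) ^ 2 = ∑ g : G, ∑ g' : G,
          (ZMod.stdAddChar (x * (((g : (ZMod p)ˣ) : ZMod p) - ((g' : (ZMod p)ˣ) : ZMod p))) : ℂ) := by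
        intro x
        rw [← Complex.mul_conj', hS]
        simp only [map_sum]
        rw [sum_mul_sum]
        refine sum_congr rfl fun g _ => sum_congr rfl fun g' _ => ?_
        rw [← AddChar.map_neg_eq_conj, ← AddChar.map_add_eq_mul]
        congr 1
        ring
      rw [sum_congr rfl fun x _ => h3 x, sum_comm]
      have h4 : ∀ g : G, ∑ x : ZMod p, ∑ g' : G,
          (ZMod.stdAddChar (x * (((g : (ZMod p)ˣ) : ZMod p) - ((g' : (ZMod p)ˣ) : ZMod p))) : ℂ) = p := by
        intro g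
        rw [sum_comm, sum_eq_single g]
        · rw [sum_psi, sub_self, if_pos rfl]
        · intro g' _ hg
          rw [sum_psi, if_neg]
          intro h0
          apply hg
          apply Subtype.ext
          apply Units.ext
          exact (sub_eq_zero.mp h0).symm
        · intro h
          exact absurd (mem_univ _) h
      rw [sum_congr rfl fun g _ => h4 g, sum_const, nsmul_eq_mul, card_univ, mul_comm]
    exact_mod_cast h2
  have h2 : Fintype.card G * ‖S b‖ ^ 2 ≤ ∑ x : ZMod p, ‖S x‖ ^ 2 := by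
    have hinj : Function.Injective (fun h : G => b * ((h : (ZMod p)ˣ) : ZMod p)) := by
      intro h h' hh
      have := mul_left_cancel₀ hb hh
      exact Subtype.ext (Units.ext this)
    calc Fintype.card G * ‖S b‖ ^ 2 = ∑ h : G, ‖S (b * ((h : (ZMod p)ˣ) : ZMod p))‖ ^ 2 := by
          rw [sum_congr rfl fun h _ => by rw [hinv h], sum_const, nsmul_eq_mul, card_univ]
      _ = ∑ x ∈ univ.map ⟨_, hinj⟩, ‖S x‖ ^ 2 := by rw [sum_map]; rfl
      _ ≤ _ := sum_le_sum_of_subset_of_nonneg (subset_univ _) fun _ _ _ => by positivity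
  rw [h1] at h2
  have h3 : (0 : ℝ) < Fintype.card G := by exact_mod_cast hGpos
  have h4 : ‖S b‖ ^ 2 ≤ p := by
    rw [mul_comm] at h2
    exact le_of_mul_le_mul_right h2 h3
  rw [← Real.sqrt_sq (norm_nonneg (S b))]
  exact Real.sqrt_le_sqrt h4

/-- the coset `c G` -/
noncomputable def coset (G : Subgroup (ZMod p)ˣ) (c : (ZMod p)ˣ) : Finset (ZMod p) :=
  univ.image (fun g : G => (c : ZMod p) * ((g : (ZMod p)ˣ) : ZMod p))

lemma coset_inj (G : Subgroup (ZMod p)ˣ) (c : (ZMod p)ˣ) :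
    Function.Injective (fun g : G => (c : ZMod p) * ((g : (ZMod p)ˣ) : ZMod p)) := by
  intro h h' hh
  have := mul_left_cancel₀ c.ne_zero hh
  exact Subtype.ext (Units.ext this)

lemma coset_card (G : Subgroup (ZMod p)ˣ) (c : (ZMod p)ˣ) : (coset G c).card = Nat.card G := by
  rw [coset, card_image_of_injective _ (coset_inj G c), card_univ, Nat.card_eq_fintype_card]

lemma coset_sum (G : Subgroup (ZMod p)ˣ) (c : (ZMod p)ˣ) (a : ZMod p) (ha : a ≠ 0) :
    ‖∑ x ∈ coset G c, (ZMod.stdAddChar (a * x) : ℂ)‖ ≤ Real.sqrt p := by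
  rw [coset, sum_image (fun x _ y _ h => coset_inj G c h)]
  have := subgroup_sum G (a * c) (mul_ne_zero ha c.ne_zero)
  simp only [mul_assoc] at this
  exact this

/-- the `n`-torsion -/
noncomputable def tors (n : ℕ) : Subgroup (ZMod p)ˣ := (powMonoidHom n : (ZMod p)ˣ →* (ZMod p)ˣ).ker

lemma mem_tors (n : ℕ) (x : (ZMod p)ˣ) : x ∈ (tors n : Subgroup (ZMod p)ˣ) ↔ x ^ n = 1 := by
  rw [tors, MonoidHom.mem_ker, powMonoidHom_apply]

lemma mu_sum (n : ℕ) (hn : n ≠ 0) :
    ∑ d ∈ n.divisors, (ArithmeticFunction.moebius d : ℤ) = if n = 1 then 1 else 0 := by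
  have h : (ArithmeticFunction.moebius * (ArithmeticFunction.zeta : ArithmeticFunction ℤ)) n =
      (1 : ArithmeticFunction ℤ) n := by rw [ArithmeticFunction.moebius_mul_coe_zeta]
  rw [ArithmeticFunction.coe_mul_zeta_apply, ArithmeticFunction.one_apply] at h
  exact h

/-- the primitive roots -/
noncomputable def prim : Finset (ZMod p) := univ.filter (fun x : ZMod p => orderOf x = p - 1)

lemma prim_sum (f : ZMod p → ℂ) : ∑ x ∈ (prim : Finset (ZMod p)), f x =
    ∑ d ∈ (p - 1).divisors, (ArithmeticFunction.moebius d : ℂ) *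
      ∑ g : (tors ((p - 1) / d) : Subgroup (ZMod p)ˣ), f ((g : (ZMod p)ˣ) : ZMod p) := by
  have hpp : p.Prime := Fact.out
  have hp1 : p - 1 ≠ 0 := by have := hpp.two_le; omega
  have hcard : Fintype.card (ZMod p)ˣ = p - 1 := ZMod.card_units p
  have h1 : ∑ x ∈ (prim : Finset (ZMod p)), f x =
      ∑ x : (ZMod p)ˣ, if orderOf x = p - 1 then f x else 0 := by
    rw [← sum_filter]
    refine (sum_bij (fun (x : (ZMod p)ˣ) _ => (x : ZMod p)) ?_ ?_ ?_ ?_).symm
    · intro x hx
      rw [mem_filter] at hx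
      rw [prim, mem_filter]
      exact ⟨mem_univ _, by rw [orderOf_units]; exact hx.2⟩
    · intro x _ y _ h
      exact Units.ext h
    · intro y hy
      rw [prim, mem_filter] at hy
      have hy0 : y ≠ 0 := by
        intro h0
        have h2 : y ^ (p - 1) = 1 := by rw [← hy.2]; exact pow_orderOf_eq_one y
        rw [h0, zero_pow hp1] at h2
        exact zero_ne_one h2
      refine ⟨Units.mk0 y hy0, ?_, rfl⟩
      rw [mem_filter]
      refine ⟨mem_univ _, ?_⟩
      rw [← orderOf_units]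
      exact hy.2
    · intro x _
      rfl
  have h2 : ∀ d ∈ (p - 1).divisors, ∑ g : (tors ((p - 1) / d) : Subgroup (ZMod p)ˣ), f ((g : (ZMod p)ˣ) : ZMod p) =
      ∑ x : (ZMod p)ˣ, if x ^ ((p - 1) / d) = 1 then f x else 0 := by
    intro d _
    rw [← sum_filter]
    refine sum_bij (fun g _ => (g : (ZMod p)ˣ)) ?_ ?_ ?_ ?_
    · intro g _
      rw [mem_filter]
      exact ⟨mem_univ _, (mem_tors _ _).1 g.2⟩
    · intro g _ g' _ h
      exact Subtype.ext h
    · intro x hx
      rw [mem_filter] at hx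
      exact ⟨⟨x, (mem_tors _ _).2 hx.2⟩, mem_univ _, rfl⟩
    · intro g _
      rfl
  have h2' : ∑ d ∈ (p - 1).divisors, (ArithmeticFunction.moebius d : ℂ) *
      ∑ g : (tors ((p - 1) / d) : Subgroup (ZMod p)ˣ), f ((g : (ZMod p)ˣ) : ZMod p) =
      ∑ d ∈ (p - 1).divisors, (ArithmeticFunction.moebius d : ℂ) *
      ∑ x : (ZMod p)ˣ, (if x ^ ((p - 1) / d) = 1 then f x else 0) :=
    sum_congr rfl fun d hd => by rw [h2 d hd]
  rw [h1, h2']
  simp only [mul_sum]
  rw [sum_comm]
  refine sum_congr rfl fun x _ => ?_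
  have hdvd : orderOf x ∣ p - 1 := by
    have := orderOf_dvd_card (x := x)
    rwa [hcard] at this
  obtain ⟨m, hm⟩ := hdvd
  have hm0 : m ≠ 0 := by rintro rfl; exact hp1 (by rw [hm, mul_zero])
  have ho0 : 0 < orderOf x := orderOf_pos x
  have h3 : ∀ d ∈ (p - 1).divisors, (ArithmeticFunction.moebius d : ℂ) *
      (if x ^ ((p - 1) / d) = 1 then f (x : ZMod p) else 0) =
      if d ∣ m then (ArithmeticFunction.moebius d : ℂ) * f x else 0 := by
    intro d hd
    have hd' := Nat.dvd_of_mem_divisors hd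
    have hiff : x ^ ((p - 1) / d) = 1 ↔ d ∣ m := by
      rw [← orderOf_dvd_iff_pow_eq_one, Nat.dvd_div_iff_mul_dvd hd', hm, mul_comm d]
      exact Nat.mul_dvd_mul_iff_left ho0
    by_cases h : d ∣ m
    · rw [if_pos (hiff.2 h), if_pos h]
    · rw [if_neg (fun h' => h (hiff.1 h')), if_neg h, mul_zero]
  rw [sum_congr rfl h3, ← sum_filter, ← sum_mul]
  have h4 : (p - 1).divisors.filter (fun d => d ∣ m) = m.divisors := by
    ext d
    rw [mem_filter, Nat.mem_divisors, Nat.mem_divisors]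
    constructor
    · rintro ⟨_, h⟩
      exact ⟨h, hm0⟩
    · rintro ⟨h, _⟩
      exact ⟨⟨h.trans (Dvd.intro_left _ hm.symm), hp1⟩, h⟩
  rw [h4]
  have h5 := mu_sum m hm0
  have h6 : ∑ d ∈ m.divisors, (ArithmeticFunction.moebius d : ℂ) = if m = 1 then 1 else 0 := by
    have := congrArg (fun z : ℤ => (z : ℂ)) h5
    push_cast at this
    rw [this]
  rw [h6]
  have h7 : orderOf x = p - 1 ↔ m = 1 := by
    constructor
    · intro h
      rw [h] at hm
      have : (p - 1) * 1 = (p - 1) * m := by omega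
      exact (Nat.eq_of_mul_eq_mul_left (by omega) this).symm
    · intro h
      rw [hm, h, mul_one]
  by_cases h : m = 1
  · rw [if_pos (h7.2 h), if_pos h, one_mul]
  · rw [if_neg (fun h' => h (h7.1 h')), if_neg h, zero_mul]

lemma prim_bound (a : ZMod p) (ha : a ≠ 0) :
    ‖∑ x ∈ (prim : Finset (ZMod p)), (ZMod.stdAddChar (a * x) : ℂ)‖ ≤ (p - 1).divisors.card * Real.sqrt p := by
  rw [prim_sum]
  refine (norm_sum_le _ _).trans ?_
  rw [← nsmul_eq_mul, ← sum_const]
  refine sum_le_sum fun d _ => ?_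
  rw [norm_mul]
  have h1 : ‖(ArithmeticFunction.moebius d : ℂ)‖ ≤ 1 := by
    rw [Complex.norm_intCast]
    exact_mod_cast ArithmeticFunction.abs_moebius_le_one
  calc _ ≤ 1 * Real.sqrt p := by
        gcongr
        exact subgroup_sum _ a ha
    _ = _ := one_mul _

lemma prim_card : (prim : Finset (ZMod p)).card = (p - 1).totient := by
  have hpp : p.Prime := Fact.out
  have hcard : Fintype.card (ZMod p)ˣ = p - 1 := ZMod.card_units p
  have hp1 : p - 1 ≠ 0 := by have := hpp.two_le; omega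
  rw [← IsCyclic.card_orderOf_eq_totient (α := (ZMod p)ˣ) (d := p - 1) (by rw [hcard])]
  refine (card_bij (fun (x : (ZMod p)ˣ) _ => (x : ZMod p)) ?_ ?_ ?_).symm
  · intro x hx
    rw [mem_filter] at hx
    rw [prim, mem_filter]
    exact ⟨mem_univ _, by rw [orderOf_units]; exact hx.2⟩
  · intro x _ y _ h
    exact Units.ext h
  · intro y hy
    rw [prim, mem_filter] at hy
    have hy0 : y ≠ 0 := by
      intro h0
      have h2 : y ^ (p - 1) = 1 := by rw [← hy.2]; exact pow_orderOf_eq_one y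
      rw [h0, zero_pow hp1] at h2
      exact zero_ne_one h2
    refine ⟨Units.mk0 y hy0, ?_, rfl⟩
    rw [mem_filter]
    refine ⟨mem_univ _, ?_⟩
    rw [← orderOf_units]
    exact hy.2

/-- the residues `x ≠ 0` with `c / x` in the interval -/
noncomputable def hyp (c : ZMod p) (v K : ℕ) : Finset (ZMod p) :=
  univ.filter (fun x : ZMod p => x ≠ 0 ∧ ∃ m ∈ Ioc v (v + K), x * (m : ZMod p) = c)

lemma hyp_sum {E : Type*} [AddCommMonoid E] (c : ZMod p) (hc : c ≠ 0) (v K : ℕ) (hK : K ≤ p) (f : ZMod p → E) :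
    ∑ x ∈ hyp c v K, f x = ∑ j ∈ Ioc 0 K, if (v : ZMod p) + (j : ZMod p) = 0 then 0 else
      f (c * ((v : ZMod p) + (j : ZMod p))⁻¹) := by
  have hpp : p.Prime := Fact.out
  have h1 : ∀ j : ℕ, (if (v : ZMod p) + (j : ZMod p) = 0 then 0 else
      f (c * ((v : ZMod p) + (j : ZMod p))⁻¹)) =
      if ¬ (v : ZMod p) + (j : ZMod p) = 0 then f (c * ((v : ZMod p) + (j : ZMod p))⁻¹) else 0 := by
    intro j
    by_cases h : (v : ZMod p) + (j : ZMod p) = 0
    · rw [if_pos h, if_neg (not_not.2 h)]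
    · rw [if_neg h, if_pos h]
  rw [sum_congr rfl fun j _ => h1 j, ← sum_filter]
  symm
  refine sum_bij (fun j _ => c * ((v : ZMod p) + (j : ZMod p))⁻¹) ?_ ?_ ?_ ?_
  · intro j hj
    rw [mem_filter, mem_Ioc] at hj
    rw [hyp, mem_filter]
    refine ⟨mem_univ _, mul_ne_zero hc (inv_ne_zero hj.2), v + j, ?_, ?_⟩
    · rw [mem_Ioc]
      omega
    · push_cast
      rw [mul_assoc, inv_mul_cancel₀ hj.2, mul_one]
  · intro j hj j' hj' h
    rw [mem_filter, mem_Ioc] at hj hj'
    have h2 := inv_injective (mul_left_cancel₀ hc h)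
    have h3 : ((j : ℕ) : ZMod p) = (j' : ZMod p) := add_left_cancel h2
    have h4 : (p : ℤ) ∣ (j : ℤ) - j' := by
      have := (ZMod.natCast_eq_natCast_iff j j' p).1 h3
      exact (Nat.modEq_iff_dvd.1 this.symm)
    obtain ⟨k, hk⟩ := h4
    have h5 : k = 0 := by
      by_contra h0
      have hpz : (0 : ℤ) < p := by exact_mod_cast hpp.pos
      have h6 : (1 : ℤ) ≤ |k| := Int.one_le_abs h0
      have h7 : |(j : ℤ) - j'| = p * |k| := by rw [hk, abs_mul, abs_of_pos hpz]
      have h8 : |(j : ℤ) - j'| < p := by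
        rw [abs_lt]
        constructor <;> omega
      nlinarith
    rw [h5, mul_zero] at hk
    omega
  · intro x hx
    rw [hyp, mem_filter] at hx
    obtain ⟨_, hx0, m, hm, hxm⟩ := hx
    rw [mem_Ioc] at hm
    have hm0 : (m : ZMod p) ≠ 0 := by
      intro h0
      rw [h0, mul_zero] at hxm
      exact hc hxm.symm
    have hmj : (v : ZMod p) + ((m - v : ℕ) : ZMod p) = m := by
      rw [Nat.cast_sub hm.1.le]
      ring
    refine ⟨m - v, ?_, ?_⟩
    · rw [mem_filter, mem_Ioc, hmj]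
      exact ⟨by omega, hm0⟩
    · rw [hmj, ← hxm, mul_assoc, mul_inv_cancel₀ hm0, mul_one]
  · intro j _
    rfl

lemma hyp_card (c : ZMod p) (hc : c ≠ 0) (v K : ℕ) (hK : K ≤ p) : K ≤ (hyp c v K).card + 1 := by
  have hpp : p.Prime := Fact.out
  have h1 := hyp_sum c hc v K hK (fun _ => 1)
  rw [sum_const, smul_eq_mul, mul_one] at h1
  rw [h1]
  have h2 : ∀ j : ℕ, (if (v : ZMod p) + (j : ZMod p) = 0 then 0 else 1) +
      (if (v : ZMod p) + (j : ZMod p) = 0 then 1 else 0) = 1 := by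
    intro j
    split_ifs <;> rfl
  have h3 : ∑ j ∈ Ioc 0 K, (if (v : ZMod p) + (j : ZMod p) = 0 then 0 else 1) +
      ∑ j ∈ Ioc 0 K, (if (v : ZMod p) + (j : ZMod p) = 0 then 1 else 0) = K := by
    rw [← sum_add_distrib, sum_congr rfl fun j _ => h2 j]
    simp
  have h4 : ∑ j ∈ Ioc 0 K, (if (v : ZMod p) + (j : ZMod p) = 0 then 1 else 0) ≤ 1 := by
    rw [← card_filter, card_le_one]
    intro j hj j' hj'
    rw [mem_filter, mem_Ioc] at hj hj'
    have h3 : ((j : ℕ) : ZMod p) = (j' : ZMod p) := add_left_cancel (hj.2.trans hj'.2.symm)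
    have h4 : (p : ℤ) ∣ (j : ℤ) - j' := by
      have := (ZMod.natCast_eq_natCast_iff j j' p).1 h3
      exact (Nat.modEq_iff_dvd.1 this.symm)
    obtain ⟨k, hk⟩ := h4
    have h5 : k = 0 := by
      by_contra h0
      have hpz : (0 : ℤ) < p := by exact_mod_cast hpp.pos
      have h6 : (1 : ℤ) ≤ |k| := Int.one_le_abs h0
      have h7 : |(j : ℤ) - j'| = p * |k| := by rw [hk, abs_mul, abs_of_pos hpz]
      have h8 : |(j : ℤ) - j'| < p := by
        rw [abs_lt]
        constructor <;> omega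
      nlinarith
    rw [h5, mul_zero] at hk
    omega
  omega

lemma units_sum (f : ZMod p → ℂ) : ∑ y : ZMod p, (if y = 0 then 0 else f y) =
    ∑ y : (ZMod p)ˣ, f (y : ZMod p) := by
  have h1 : ∀ y : ZMod p, (if y = 0 then 0 else f y) = if y ≠ 0 then f y else 0 := by
    intro y
    by_cases h : y = 0
    · rw [if_pos h, if_neg (not_not.2 h)]
    · rw [if_neg h, if_pos h]
  rw [sum_congr rfl fun y _ => h1 y, ← sum_filter]
  symm
  refine sum_bij (fun y _ => (y : ZMod p)) ?_ ?_ ?_ ?_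
  · intro y _
    rw [mem_filter]
    exact ⟨mem_univ _, y.ne_zero⟩
  · intro x _ y _ h
    exact Units.ext h
  · intro y hy
    rw [mem_filter] at hy
    exact ⟨Units.mk0 y hy.2, mem_univ _, rfl⟩
  · intro y _
    rfl

lemma hyp_bound (c : ZMod p) (hc : c ≠ 0) (v K : ℕ) (hK : K ≤ p) (a : ZMod p) (ha : a ≠ 0) :
    ‖∑ x ∈ hyp c v K, (ZMod.stdAddChar (a * x) : ℂ)‖ ≤ 2 * Real.sqrt p * (3 + Real.log p) := by
  have hpp : p.Prime := Fact.out
  have hpR : (0 : ℝ) < p := by exact_mod_cast hpp.pos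
  have hac : a * c ≠ 0 := mul_ne_zero ha hc
  have hs1 : (1 : ℝ) ≤ Real.sqrt p := by
    rw [Real.one_le_sqrt]
    exact_mod_cast hpp.one_lt.le
  have h1 := Pool.Agent.Y951.MW.incomplete (p := p)
    (g := fun z => if (v : ZMod p) + z = 0 then (0 : ℂ) else
      (ZMod.stdAddChar (a * (c * ((v : ZMod p) + z)⁻¹)) : ℂ)) (Γ := 2 * Real.sqrt p) (by positivity) (by
      intro b
      have h2 : ∑ r : ZMod p, (if (v : ZMod p) + r = 0 then (0 : ℂ) else
          (ZMod.stdAddChar (a * (c * ((v : ZMod p) + r)⁻¹)) : ℂ)) * (ZMod.stdAddChar (b * r) : ℂ) =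
          (ZMod.stdAddChar (-(b * (v : ZMod p))) : ℂ) * ∑ y : (ZMod p)ˣ,
            (ZMod.stdAddChar (b * (y : ZMod p) + a * c * ((y⁻¹ : (ZMod p)ˣ) : ZMod p)) : ℂ) := by
        have h3 : ∑ y : (ZMod p)ˣ,
            (ZMod.stdAddChar (b * (y : ZMod p) + a * c * ((y⁻¹ : (ZMod p)ˣ) : ZMod p)) : ℂ) =
            ∑ y : ZMod p, (if y = 0 then 0 else (ZMod.stdAddChar (b * y + a * c * y⁻¹) : ℂ)) := by
          rw [units_sum (fun y => (ZMod.stdAddChar (b * y + a * c * y⁻¹) : ℂ))]
          refine sum_congr rfl fun y _ => ?_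
          rw [Units.val_inv_eq_inv_val]
        rw [h3, mul_sum]
        refine Fintype.sum_equiv (Equiv.addLeft (v : ZMod p)) _ _ ?_
        intro r
        rw [Equiv.coe_addLeft]
        split_ifs with h
        · rw [zero_mul, mul_zero]
        · rw [← AddChar.map_add_eq_mul, ← AddChar.map_add_eq_mul]
          congr 1
          ring
      rw [h2, norm_mul, AddChar.norm_apply, one_mul]
      rcases eq_or_ne b 0 with h0 | h0
      · have h4 : ∑ y : (ZMod p)ˣ,
            (ZMod.stdAddChar (b * (y : ZMod p) + a * c * ((y⁻¹ : (ZMod p)ˣ) : ZMod p)) : ℂ) = -1 := by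
          have h5 : ∑ y : (ZMod p)ˣ,
            (ZMod.stdAddChar (b * (y : ZMod p) + a * c * ((y⁻¹ : (ZMod p)ˣ) : ZMod p)) : ℂ) =
            ∑ y : (ZMod p)ˣ, (ZMod.stdAddChar ((y : ZMod p) * (a * c)) : ℂ) := by
            refine Fintype.sum_equiv (Equiv.inv _) _ _ ?_
            intro y
            rw [h0, zero_mul, zero_add, Equiv.inv_apply, mul_comm]
          rw [h5, ← units_sum (fun y => (ZMod.stdAddChar (y * (a * c)) : ℂ))]
          have h6 := sum_psi (p := p) (a * c)
          rw [if_neg hac] at h6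
          have h7 : ∀ y : ZMod p, (if y = 0 then (0 : ℂ) else (ZMod.stdAddChar (y * (a * c)) : ℂ)) =
              (ZMod.stdAddChar (y * (a * c)) : ℂ) - if y = 0 then 1 else 0 := by
            intro y
            split_ifs with h
            · rw [h, zero_mul, AddChar.map_zero_eq_one, sub_self]
            · rw [sub_zero]
          rw [sum_congr rfl fun y _ => h7 y, sum_sub_distrib, h6, sum_ite_eq' univ (0 : ZMod p),
            if_pos (mem_univ _), zero_sub]
        rw [h4, norm_neg, norm_one]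
        linarith
      · exact Pool.Agent.H498R2.kloosterman_prime p b (a * c) h0 hac) 0 (u := 0) (v := K) (N := p) hK
  simp only [mul_zero, Pool.Agent.Y933.KD.e_zero, mul_one] at h1
  rw [hyp_sum c hc v K hK (fun x => (ZMod.stdAddChar (a * x) : ℂ))]
  refine h1.trans (le_of_eq ?_)
  field_simp
  ring

end

end Pool.Agent.X55.Mod
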