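import Pool.Agent.TH915.PW.IntCrit
import Pool.Agent.Y951.MW.Comp

/-! Residues modulo a prime in large prime gaps: the general theorem for sets with small Fourier coefficients. -/

set_option autoImplicit false

namespace Pool.Agent.X55.Mod

open Finset Filter
open Pool.Agent.W147.PS (ff ff_compare ev_pow)
open Pool.Agent.Y933.KD (e norm_e e_add)

lemma geo (q h : ℕ) (h1 : 1 ≤ h) (hq : h < q) (H : ℕ) :
    ‖∑ n ∈ Ioc 0 H, e (n * ((h : ℝ) / q))‖ ≤ q := by
  have h2 := Pool.Agent.Y951.MW.geom_le ((h : ℝ) / q) 0 H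
  have hq0 : (0 : ℝ) < q := by exact_mod_cast (by omega : 0 < q)
  have h3 : 1 / (q : ℝ) ≤ |(h : ℝ) / q - round ((h : ℝ) / q)| := by
    have h4 : (h : ℝ) / q - round ((h : ℝ) / q) = (((h : ℤ) - q * round ((h : ℝ) / q) : ℤ) : ℝ) / q := by
      push_cast
      field_simp
    rw [h4, abs_div, abs_of_pos hq0, div_le_div_iff_of_pos_right hq0]
    have h5 : ((h : ℤ) - q * round ((h : ℝ) / q)) ≠ 0 := by
      intro h0
      have h6 : (q : ℤ) ∣ h := ⟨round ((h : ℝ) / q), by omega⟩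
      have := Int.le_of_dvd (by omega) h6
      omega
    have h7 := Int.one_le_abs h5
    exact_mod_cast h7
  have h4 : 0 ≤ ‖∑ n ∈ Ioc 0 H, e (n * ((h : ℝ) / q))‖ := norm_nonneg _
  have h5 : ‖∑ n ∈ Ioc 0 H, e (n * ((h : ℝ) / q))‖ * (2 * (1 / q)) ≤ 1 := by
    refine le_trans ?_ h2
    gcongr
  have h6 : ‖∑ n ∈ Ioc 0 H, e (n * ((h : ℝ) / q))‖ * (2 * (1 / q)) =
      2 * ‖∑ n ∈ Ioc 0 H, e (n * ((h : ℝ) / q))‖ / q := by ring
  rw [h6, div_le_one hq0] at h5
  linarith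

section

variable {p : ℕ} [Fact p.Prime]

/-- the exponential sum of a set of residues over an interval -/
lemma expo (A : Finset (ZMod p)) {Γ : ℝ} (hΓ : 0 ≤ Γ)
    (hG : ∀ a : ZMod p, a ≠ 0 → ‖∑ x ∈ A, (ZMod.stdAddChar (a * x) : ℂ)‖ ≤ Γ) (u H : ℕ) (hH : H ≤ p)
    (η : ℝ) :
    ‖∑ j ∈ (Ioc 0 H).filter (fun j : ℕ => ((u + j : ℕ) : ZMod p) ∈ A), e (j * η) -
      (A.card : ℂ) / p * ∑ j ∈ Ioc 0 H, e (j * η)‖ ≤ Γ * (3 + Real.log p) := by
  classical
  have hpp : p.Prime := Fact.out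
  have hpR : (0 : ℝ) < p := by exact_mod_cast hpp.pos
  have hpC : (p : ℂ) ≠ 0 := by exact_mod_cast hpp.ne_zero
  have h1 := Pool.Agent.Y951.MW.incomplete (p := p)
    (g := fun x => (if (u : ZMod p) + x ∈ A then (1 : ℂ) else 0) - (A.card : ℂ) / p) hΓ (by
      intro a
      have h2 : ∑ r : ZMod p, ((if (u : ZMod p) + r ∈ A then (1 : ℂ) else 0) - (A.card : ℂ) / p) *
          (ZMod.stdAddChar (a * r) : ℂ) =
          (ZMod.stdAddChar (-(a * (u : ZMod p))) : ℂ) * ∑ x ∈ A, (ZMod.stdAddChar (a * x) : ℂ) -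
            (A.card : ℂ) / p * ∑ r : ZMod p, (ZMod.stdAddChar (a * r) : ℂ) := by
        simp only [sub_mul, sum_sub_distrib, mul_sum]
        congr 1
        rw [← sum_filter_add_sum_filter_not univ (fun r : ZMod p => (u : ZMod p) + r ∈ A)]
        rw [sum_eq_zero (s := univ.filter (fun r : ZMod p => ¬ (u : ZMod p) + r ∈ A)) (by
          intro r hr
          rw [mem_filter] at hr
          rw [if_neg hr.2, zero_mul]), add_zero]
        refine sum_bij' (fun r _ => (u : ZMod p) + r) (fun x _ => x - (u : ZMod p)) ?_ ?_ ?_ ?_ ?_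
        · intro r hr
          exact (mem_filter.1 hr).2
        · intro x hx
          rw [mem_filter]
          refine ⟨mem_univ _, ?_⟩
          rw [add_sub_cancel]
          exact hx
        · intro r _
          ring
        · intro x _
          ring
        · intro r hr
          rw [if_pos (mem_filter.1 hr).2, one_mul, ← AddChar.map_add_eq_mul]
          congr 1
          ring
      rw [h2]
      have h3 : ∑ r : ZMod p, (ZMod.stdAddChar (a * r) : ℂ) = if a = 0 then (p : ℂ) else 0 := by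
        have h4 := AddChar.sum_mulShift a (ZMod.isPrimitive_stdAddChar p)
        rw [ZMod.card] at h4
        push_cast at h4
        rw [← h4]
        refine sum_congr rfl fun r _ => ?_
        rw [mul_comm]
      rcases eq_or_ne a 0 with h0 | h0
      · rw [h3, if_pos h0, h0]
        simp only [zero_mul, neg_zero, AddChar.map_zero_eq_one, sum_const, nsmul_eq_mul, mul_one, one_mul]
        rw [div_mul_cancel₀ _ hpC, sub_self, norm_zero]
        exact hΓ
      · rw [h3, if_neg h0, mul_zero, sub_zero, norm_mul, AddChar.norm_apply, one_mul]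
        exact hG a h0) η (u := 0) (v := H) (N := p) hH
  have h2 : ∑ n ∈ Ioc 0 H, ((if (u : ZMod p) + (n : ZMod p) ∈ A then (1 : ℂ) else 0) - (A.card : ℂ) / p) *
      e (n * η) = ∑ j ∈ (Ioc 0 H).filter (fun j : ℕ => ((u + j : ℕ) : ZMod p) ∈ A), e (j * η) -
      (A.card : ℂ) / p * ∑ j ∈ Ioc 0 H, e (j * η) := by
    simp only [sub_mul, sum_sub_distrib, mul_sum]
    congr 1
    rw [sum_filter]
    refine sum_congr rfl fun j _ => ?_
    push_cast
    split_ifs with h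
    · rw [one_mul]
    · rw [zero_mul]
  rw [h2] at h1
  refine h1.trans (le_of_eq ?_)
  field_simp
  ring

end

/-- sets with small Fourier coefficients -/
theorem gen (ε : ℝ) (hε : 0 < ε) (hε1 : ε ≤ 1) : ∃ κ : ℝ, 0 < κ ∧ ∃ P₀ : ℕ, ∀ p : ℕ, P₀ ≤ p →
    ∀ [Fact p.Prime] (A : Finset (ZMod p)) (Γ : ℝ), 1 ≤ Γ →
    (∀ a : ZMod p, a ≠ 0 → ‖∑ x ∈ A, (ZMod.stdAddChar (a * x) : ℂ)‖ ≤ Γ) →
    ∀ M H : ℕ, H ≤ p → Γ * (p : ℝ) ^ (1 + ε) ≤ A.card * H →
    ∃ n : ℕ, M < n ∧ n ≤ M + H ∧ (n : ZMod p) ∈ A ∧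
      ∀ q : ℕ, q.Prime → κ * ff p < |(q : ℝ) - n| := by
  obtain ⟨κ, hκ, hc⟩ := Pool.Agent.TH915.PW.crit_int (1 / 2) (by norm_num) (by norm_num)
  have hlog : ∀ δ : ℝ, 0 < δ → ∀ᶠ x : ℝ in atTop, Real.log x ≤ x ^ δ := by
    intro δ hδ
    have h := (isLittleO_log_rpow_atTop hδ).def (show (0 : ℝ) < 1 by norm_num)
    filter_upwards [h, eventually_ge_atTop (1 : ℝ)] with X hX hX1
    rwa [Real.norm_eq_abs, abs_of_nonneg (Real.log_nonneg hX1), Real.norm_eq_abs,
      abs_of_nonneg (Real.rpow_nonneg (by linarith) _), one_mul] at hX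
  have hev := ((tendsto_rpow_atTop (show (0 : ℝ) < ε / 2 by linarith)).eventually hc).and
    ((ff_compare (ε / 2) (by linarith) (by linarith)).and
      ((ev_pow (ε / 2) ε 16 (by linarith)).and ((ev_pow (ε / 4) (3 * ε / 4) 10 (by linarith)).and
        ((hlog (ε / 4) (by linarith)).and (eventually_ge_atTop (1 : ℝ))))))
  obtain ⟨X₀, hX₀⟩ := eventually_atTop.mp hev
  refine ⟨κ * (ε / 2 / 32), by positivity, ⌈X₀⌉₊, ?_⟩
  intro p hp0 _ A Γ hΓ hG M H hH hA
  have hpp : p.Prime := Fact.out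
  have hpX : X₀ ≤ (p : ℝ) := (Nat.le_ceil _).trans (by exact_mod_cast hp0)
  obtain ⟨c1, c2, c3, c4, c5, c6⟩ := hX₀ p hpX
  have hpR : (0 : ℝ) < p := by linarith
  have hx1 : (1 : ℝ) ≤ (p : ℝ) ^ (ε / 4) := Real.one_le_rpow c6 (by linarith)
  have hx2 : (1 : ℝ) ≤ (p : ℝ) ^ (ε / 2) := Real.one_le_rpow c6 (by linarith)
  have hx3 : (p : ℝ) ^ (ε / 4) ≤ (p : ℝ) ^ (ε / 2) := Real.rpow_le_rpow_of_exponent_le c6 (by linarith)
  set x : ℝ := (p : ℝ) ^ ε with hx
  have hAp : (A.card : ℝ) ≤ p := by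
    have h1 := card_le_univ A
    rw [ZMod.card] at h1
    exact_mod_cast h1
  have hp1 : (p : ℝ) ^ (1 + ε) = p * x := by rw [Real.rpow_add hpR, Real.rpow_one]
  rw [hp1] at hA
  set t : ℕ := ⌈(p : ℝ) ^ (ε / 2)⌉₊ with ht
  have ht1 : (p : ℝ) ^ (ε / 2) ≤ t := Nat.le_ceil _
  have ht2 : (t : ℝ) ≤ (p : ℝ) ^ (ε / 2) + 1 := (Nat.ceil_lt_add_one (by linarith)).le
  have htx : (t : ℝ) ≤ x / 4 := by linarith
  have hx0 : 0 < x := by linarith
  have hHx : x ≤ H := by
    have h1 : (p : ℝ) * x ≤ p * H := by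
      calc (p : ℝ) * x ≤ Γ * (p * x) := by
            have : 0 ≤ (p : ℝ) * x := by positivity
            nlinarith
        _ ≤ A.card * H := hA
        _ ≤ p * H := by gcongr
    exact le_of_mul_le_mul_left h1 hpR
  have htH : t ≤ H := by
    have : (t : ℝ) ≤ H := by linarith
    exact_mod_cast this
  set H' : ℕ := H - t with hH'
  have hH'c : (H' : ℝ) = H - t := by rw [hH', Nat.cast_sub htH]
  have hAH : 3 / 4 * (Γ * (p * x)) ≤ A.card * H' := by
    rw [hH'c, mul_sub]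
    have h1 : (A.card : ℝ) * t ≤ p * (x / 4) := by gcongr
    have h2 : (p : ℝ) * x ≤ Γ * (p * x) := by
      have : 0 ≤ (p : ℝ) * x := by positivity
      nlinarith
    linarith
  set u : ℕ := M + t with hu
  set s : Finset ℕ := (Ioc 0 H').filter (fun j : ℕ => ((u + j : ℕ) : ZMod p) ∈ A) with hs
  have hcard : Γ * x / 2 ≤ s.card := by
    have h1 := expo A (by linarith) hG u H' (by omega) 0
    simp only [mul_zero, Pool.Agent.Y933.KD.e_zero, sum_const, nsmul_eq_mul, mul_one, Nat.card_Ioc,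
      Nat.sub_zero] at h1
    rw [← hs] at h1
    have h2 : ((s.card : ℂ) - (A.card : ℂ) / p * (H' : ℂ)) = (((s.card : ℝ) - A.card / p * H' : ℝ) : ℂ) := by
      push_cast
      ring
    rw [h2, Complex.norm_real, Real.norm_eq_abs] at h1
    have h3 := (abs_le.mp h1).1
    have h4 : 3 / 4 * (Γ * x) ≤ A.card / p * H' := by
      rw [div_mul_eq_mul_div (A.card : ℝ) (p : ℝ), le_div_iff₀ hpR]
      linarith
    have h5 : Γ * (3 + Real.log p) ≤ Γ * (x / 4) := by
      gcongr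
      linarith
    linarith
  have hsne : s.Nonempty := by
    rw [← card_pos]
    have : (0 : ℝ) < s.card := lt_of_lt_of_le (by positivity) hcard
    exact_mod_cast this
  obtain ⟨j, hj, hj2⟩ := c1 ℕ s (fun j => ((u + j : ℕ) : ℤ)) hsne (by
    intro j _
    push_cast
    rw [hu]
    push_cast
    have : (0 : ℝ) ≤ (M : ℝ) := Nat.cast_nonneg _
    have : (0 : ℝ) ≤ (j : ℝ) := Nat.cast_nonneg _
    linarith) (by
    intro q h hq h1 hhq
    have hq' : (q : ℝ) ≤ (p : ℝ) ^ (ε / 4) := by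
      rw [← Real.rpow_mul hpR.le] at hq
      have : ε / 2 * (1 / 2) = ε / 4 := by ring
      rwa [this] at hq
    have e1 : ∑ j ∈ s, Pool.Agent.H469R2.NK.e ((h : ℝ) / q * (((u + j : ℕ) : ℤ) : ℝ)) =
        e ((h : ℝ) / q * u) * ∑ j ∈ s, e (j * ((h : ℝ) / q)) := by
      rw [mul_sum]
      refine sum_congr rfl fun j _ => ?_
      rw [← e_add]
      change e _ = _
      congr 1
      push_cast
      ring
    rw [e1, norm_mul, norm_e, one_mul]
    have e2 := expo A (by linarith) hG u H' (by omega) ((h : ℝ) / q)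
    rw [← hs] at e2
    have e3 : ‖(A.card : ℂ) / p * ∑ j ∈ Ioc 0 H', e (j * ((h : ℝ) / q))‖ ≤ q := by
      rw [norm_mul, norm_div, Complex.norm_natCast, Complex.norm_natCast]
      have e4 := geo q h h1 hhq H'
      have e5 : (A.card : ℝ) / p ≤ 1 := by rw [div_le_one hpR]; exact hAp
      calc (A.card : ℝ) / p * ‖∑ n ∈ Ioc 0 H', e (n * ((h : ℝ) / q))‖ ≤ 1 * q := by gcongr
        _ = q := one_mul _
    have e6 : ‖∑ j ∈ s, e (j * ((h : ℝ) / q))‖ ≤ Γ * (3 + Real.log p) + q := by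
      have := norm_add_le (∑ j ∈ s, e (j * ((h : ℝ) / q)) - (A.card : ℂ) / p * ∑ j ∈ Ioc 0 H', e (j * ((h : ℝ) / q)))
        ((A.card : ℂ) / p * ∑ j ∈ Ioc 0 H', e (j * ((h : ℝ) / q)))
      rw [sub_add_cancel] at this
      linarith
    refine e6.trans ?_
    have e7 : (((p : ℝ) ^ (ε / 2)) ^ (-(1 / 2) : ℝ)) = (p : ℝ) ^ (-(ε / 4)) := by
      rw [← Real.rpow_mul hpR.le]
      congr 1
      ring
    rw [e7]
    have e8 : x * (p : ℝ) ^ (-(ε / 4)) = (p : ℝ) ^ (3 * ε / 4) := by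
      rw [hx, ← Real.rpow_add hpR]
      congr 1
      ring
    have e9 : Γ * (3 + Real.log p) + q ≤ Γ * ((p : ℝ) ^ (3 * ε / 4) / 2) := by
      have : (q : ℝ) ≤ Γ * (p : ℝ) ^ (ε / 4) := by
        have : (p : ℝ) ^ (ε / 4) ≤ Γ * (p : ℝ) ^ (ε / 4) := by nlinarith
        linarith
      calc Γ * (3 + Real.log p) + q ≤ Γ * (3 + Real.log p) + Γ * (p : ℝ) ^ (ε / 4) := by linarith
        _ = Γ * (3 + Real.log p + (p : ℝ) ^ (ε / 4)) := by ring
        _ ≤ _ := by
          apply mul_le_mul_of_nonneg_left _ (by linarith)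
          linarith
    refine e9.trans ?_
    rw [← e8]
    have hy : 0 < (p : ℝ) ^ (-(ε / 4)) := Real.rpow_pos_of_pos hpR _
    calc Γ * (x * (p : ℝ) ^ (-(ε / 4)) / 2) = (Γ * x / 2) * (p : ℝ) ^ (-(ε / 4)) := by ring
      _ ≤ _ := mul_le_mul_of_nonneg_right hcard hy.le)
  rw [hs, mem_filter, mem_Ioc] at hj
  refine ⟨u + j, by omega, by omega, hj.2, ?_⟩
  intro q hq
  have h1 := hj2 q hq
  simp only [Int.cast_natCast] at h1
  refine lt_of_le_of_lt ?_ h1
  have h5 := (c2.2 ((p : ℝ) ^ (ε / 2)) le_rfl (by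
    calc (p : ℝ) ^ (ε / 2) ≤ (p : ℝ) ^ (2 : ℝ) := Real.rpow_le_rpow_of_exponent_le c6 (by linarith)
      _ = (p : ℝ) ^ 2 := by norm_num)).1
  calc κ * (ε / 2 / 32) * ff p = κ * (ε / 2 / 32 * ff p) := by ring
    _ ≤ _ := mul_le_mul_of_nonneg_left h5 hκ.le

end Pool.Agent.X55.Mod
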